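import Pool.Agent.Lib_MP_0bab5c_x.XEnd
import Pool.Agent.Lib_MP_0bab5c_x.Lower

/-!
# The maximum size of graphs with bounded maximum local connectivity: the leading constant

`f n k` is the largest number of edges of a graph of order `n` whose maximum local connectivity
equals `k`. We show `f(n, k) = (4 - 2√3 + o(1)) k n` as `k` and `n / k²` tend to infinity: for every
`ε > 0` there is `k0` such that `(4 - 2√3) k n - k³ ≤ f(n, k) ≤ (4 - 2√3 + ε) k n` for all `k ≥ k0`
and all `n`.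

The definitions (`Sep`, `sepNum`, `kappa`, `kappaBar`, `f`) are in
`Pool/Agent/Lib_MP_0bab5c_co/KDefs.lean`.
-/

namespace Pool.Agent.Results.MP_0bab5c_co.Asymptotics

open Pool.Agent.LC0bab

/-- The leading constant of `f(n, k)` for large `k` is `4 - 2√3`. -/
theorem result (ε : ℝ) (hε : 0 < ε) : ∃ k0 : ℕ, ∀ k : ℕ, k0 ≤ k → ∀ n : ℕ,
    (4 - 2 * √3) * k * n - (k : ℝ) ^ 3 ≤ f n k ∧
      (f n k : ℝ) ≤ (4 - 2 * √3 + ε) * k * n := by
  obtain ⟨k0, hk0⟩ := LCX.exact_upper ε hε
  exact ⟨k0 + 2, fun k hk n => ⟨lower_bound k n (by omega), hk0 k (by omega) n⟩⟩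

end Pool.Agent.Results.MP_0bab5c_co.Asymptotics
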