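import Mathlib

/-!
# Graphs with bounded maximum local connectivity: a lower bound

`f n k` is the largest number of edges of a graph of order `n` whose maximum local connectivity
equals `k`.  We show `f n k ≥ (4 - 2√3) k n - k³` for all `k ≥ 2` and all `n`
(`4 - 2√3 = 0.5358…`).

The graph: take an `h`-regular simple graph `R` (disjoint copies of `K_{h+1}`), replace every
node by a clique on `z = k - h + 1` vertices and every edge of `R` by a new vertex joined to all
vertices of the two cliques at its ends.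
-/

namespace Pool.Agent.Results.MP_0bab5c_co.LowerBound

open Finset

/-- `S` separates `x` from `y` in `G`: it contains neither of them and meets every walk
from `x` to `y`. -/
def Sep {V : Type*} (G : SimpleGraph V) (x y : V) (S : Finset V) : Prop :=
  x ∉ S ∧ y ∉ S ∧ ∀ w : G.Walk x y, ∃ v ∈ w.support, v ∈ S

/-- The least size of a set separating `x` from `y` (used for non-adjacent `x`, `y`). -/
noncomputable def sepNum {V : Type*} (G : SimpleGraph V) (x y : V) : ℕ :=
  sInf {m | ∃ S : Finset V, Sep G x y S ∧ S.card = m}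

open Classical in
/-- The local connectivity of `x` and `y`. -/
noncomputable def kappa {V : Type*} (G : SimpleGraph V) (x y : V) : ℕ :=
  if G.Adj x y then sepNum (G.deleteEdges {s(x, y)}) x y + 1 else sepNum G x y

/-- The maximum local connectivity. -/
noncomputable def kappaBar {V : Type*} (G : SimpleGraph V) : ℕ :=
  sSup {m | ∃ x y, x ≠ y ∧ kappa G x y = m}

/-- The largest number of edges of a graph of order `n` with maximum local connectivity `k`. -/
noncomputable def f (n k : ℕ) : ℕ :=
  sSup {e | ∃ (V : Type) (_ : Fintype V) (G : SimpleGraph V),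
    Fintype.card V = n ∧ kappaBar G = k ∧ G.edgeSet.ncard = e}

section general

variable {V : Type*} {G : SimpleGraph V}

lemma sepNum_le {x y : V} {S : Finset V} (h : Sep G x y S) : sepNum G x y ≤ S.card :=
  Nat.sInf_le ⟨S, h, rfl⟩

lemma Sep.symm {x y : V} {S : Finset V} (h : Sep G x y S) : Sep G y x S := by
  obtain ⟨h1, h2, h3⟩ := h
  refine ⟨h2, h1, fun w => ?_⟩
  obtain ⟨v, hv, hs⟩ := h3 w.reverse
  exact ⟨v, by simpa using hv, hs⟩

lemma sepNum_comm (x y : V) : sepNum G x y = sepNum G y x := by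
  unfold sepNum
  congr 1
  ext m
  constructor
  · rintro ⟨S, h, rfl⟩; exact ⟨S, h.symm, rfl⟩
  · rintro ⟨S, h, rfl⟩; exact ⟨S, h.symm, rfl⟩

lemma kappa_comm (x y : V) : kappa G x y = kappa G y x := by
  unfold kappa
  rw [Sym2.eq_swap, sepNum_comm (G := G.deleteEdges _) x y, sepNum_comm x y]
  by_cases h : G.Adj x y
  · rw [if_pos h, if_pos h.symm]
  · rw [if_neg h, if_neg (fun h' => h h'.symm)]

lemma sep_walk (A : Set V) (S : Finset V)
    (hS : ∀ a ∈ A, ∀ b, G.Adj a b → b ∉ A → b ∈ S) :
    ∀ {x y : V} (w : G.Walk x y), x ∈ A → y ∉ A → ∃ v ∈ w.support, v ∈ S := by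
  intro x y w
  induction w with
  | nil => intro h1 h2; exact absurd h1 h2
  | cons hadj p ih =>
    rename_i a b c
    intro ha hc
    by_cases hb : b ∈ A
    · obtain ⟨v, hv, hs⟩ := ih hb hc
      exact ⟨v, by simp [hv], hs⟩
    · exact ⟨b, by simp, hS a ha b hadj hb⟩

lemma sep_of_region (A : Set V) {x y : V} (hx : x ∈ A) (hy : y ∉ A) (S : Finset V)
    (hS : ∀ a ∈ A, ∀ b, G.Adj a b → b ∉ A → b ∈ S) (hxS : x ∉ S) (hyS : y ∉ S) :
    Sep G x y S :=
  ⟨hxS, hyS, fun w => sep_walk A S hS w hx hy⟩

open Classical in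
lemma sep_nbhd [Fintype V] {x y : V} (hxy : x ≠ y) :
    Sep (G.deleteEdges {s(x, y)}) x y ((univ.filter (G.Adj x)).erase y) := by
  refine sep_of_region {x} rfl (by simpa using hxy.symm) _ ?_ ?_ ?_
  · intro a ha b hab hb
    rw [Set.mem_singleton_iff] at ha
    subst ha
    rw [SimpleGraph.deleteEdges_adj] at hab
    rw [mem_erase]
    refine ⟨?_, by simp [hab.1]⟩
    rintro rfl
    exact hab.2 rfl
  · simp
  · simp

open Classical in
lemma kappa_le_deg [Fintype V] {x y : V} (hxy : x ≠ y) :
    kappa G x y ≤ (univ.filter (G.Adj x)).card := by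
  unfold kappa
  by_cases h : G.Adj x y
  · rw [if_pos h]
    have hm : y ∈ univ.filter (G.Adj x) := by simp [h]
    have h2 := sepNum_le (sep_nbhd (G := G) hxy)
    rw [card_erase_of_mem hm] at h2
    have h3 : 0 < (univ.filter (G.Adj x)).card := card_pos.mpr ⟨y, hm⟩
    omega
  · rw [if_neg h]
    apply sepNum_le
    refine sep_of_region {x} rfl (by simpa using hxy.symm) _ ?_ (by simp) (by simpa using h)
    intro a ha b hab hb
    rw [Set.mem_singleton_iff] at ha
    subst ha
    simp [hab]

/-- Common neighbours bound the local connectivity of adjacent vertices from below. -/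
lemma le_kappa_of_adj {x y : V} (h : G.Adj x y) (C : Finset V)
    (hC : ∀ c ∈ C, G.Adj x c ∧ G.Adj c y) (S0 : Finset V)
    (hS0 : Sep (G.deleteEdges {s(x, y)}) x y S0) :
    C.card + 1 ≤ kappa G x y := by
  unfold kappa
  rw [if_pos h]
  have hne : {m | ∃ S : Finset V, Sep (G.deleteEdges {s(x, y)}) x y S ∧ S.card = m}.Nonempty :=
    ⟨_, S0, hS0, rfl⟩
  obtain ⟨S, hS, hcard⟩ := Nat.sInf_mem hne
  have hsub : C ⊆ S := by
    intro c hc
    obtain ⟨h1, h2⟩ := hC c hc
    have hcx : c ≠ x := h1.ne'
    have hcy : c ≠ y := h2.ne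
    have a1 : (G.deleteEdges {s(x, y)}).Adj x c := by
      rw [SimpleGraph.deleteEdges_adj]
      refine ⟨h1, ?_⟩
      intro hh
      rw [Set.mem_singleton_iff, Sym2.eq_iff] at hh
      rcases hh with ⟨-, h'⟩ | ⟨h', -⟩
      · exact hcy h'
      · exact h.ne h'
    have a2 : (G.deleteEdges {s(x, y)}).Adj c y := by
      rw [SimpleGraph.deleteEdges_adj]
      refine ⟨h2, ?_⟩
      intro hh
      rw [Set.mem_singleton_iff, Sym2.eq_iff] at hh
      rcases hh with ⟨h', -⟩ | ⟨h', -⟩
      · exact hcx h'
      · exact hcy h'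
    obtain ⟨v, hv, hvS⟩ := hS.2.2 (SimpleGraph.Walk.cons a1 (SimpleGraph.Walk.cons a2 .nil))
    simp only [SimpleGraph.Walk.support_cons, SimpleGraph.Walk.support_nil, List.mem_cons,
      List.not_mem_nil, or_false] at hv
    rcases hv with rfl | rfl | rfl
    · exact absurd hvS hS.1
    · exact hvS
    · exact absurd hvS hS.2.1
  have := card_le_card hsub
  show C.card + 1 ≤ sepNum _ x y + 1
  unfold sepNum
  rw [← hcard]
  omega

lemma kappaBar_eq {k : ℕ} (hle : ∀ x y : V, x ≠ y → kappa G x y ≤ k)
    (hge : ∃ x y : V, x ≠ y ∧ k ≤ kappa G x y) : kappaBar G = k := by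
  obtain ⟨x, y, hxy, hk⟩ := hge
  have heq : kappa G x y = k := le_antisymm (hle x y hxy) hk
  apply le_antisymm
  · refine csSup_le ⟨kappa G x y, x, y, hxy, rfl⟩ ?_
    rintro m ⟨a, b, hab, rfl⟩
    exact hle a b hab
  · apply le_csSup
    · refine ⟨k, ?_⟩
      rintro m ⟨a, b, hab, rfl⟩
      exact hle a b hab
    · exact ⟨x, y, hxy, heq⟩

end general

lemma le_f {V : Type} [Fintype V] (G : SimpleGraph V) {n k e : ℕ} (hn : Fintype.card V = n)
    (hk : kappaBar G = k) (he : e ≤ G.edgeSet.ncard) : e ≤ f n k := by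
  refine le_trans he ?_
  apply le_csSup
  · refine ⟨(n + 1).choose 2, ?_⟩
    rintro m ⟨W, inst, H, hW, -, rfl⟩
    classical
    calc H.edgeSet.ncard ≤ (Set.univ : Set (Sym2 W)).ncard :=
          Set.ncard_le_ncard (Set.subset_univ _) (Set.toFinite _)
      _ = Fintype.card (Sym2 W) := by rw [Set.ncard_univ, Nat.card_eq_fintype_card]
      _ = (n + 1).choose 2 := by rw [Sym2.card, hW]
  · exact ⟨V, _, G, hn, hk, rfl⟩

/-! ### The construction -/

section construction

variable {N : Type} (R : SimpleGraph N) (z r : ℕ)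

/-- Vertices: `(i, a)` with `i` a node of `R` and `a < z`; the edges of `R` (hubs); and `r`
isolated vertices. -/
abbrev Vt : Type := (N × Fin z) ⊕ (R.edgeSet ⊕ Fin r)

/-- The adjacency of the construction. -/
def adjRel : Vt R z r → Vt R z r → Prop
  | .inl p, .inl q => p.1 = q.1 ∧ p.2 ≠ q.2
  | .inl p, .inr (.inl e) => p.1 ∈ (e : Sym2 N)
  | .inr (.inl e), .inl p => p.1 ∈ (e : Sym2 N)
  | _, _ => False

/-- The graph of the construction. -/
def bigG : SimpleGraph (Vt R z r) where
  Adj := adjRel R z r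
  symm := ⟨by
    rintro (p | e | a) (q | e' | b) h <;> simp_all [adjRel]
    exact fun hh => h.2 hh.symm⟩
  loopless := ⟨by rintro (p | e | a) h <;> simp_all [adjRel]⟩

@[simp] lemma adj_ll (p q : N × Fin z) :
    (bigG R z r).Adj (.inl p) (.inl q) ↔ p.1 = q.1 ∧ p.2 ≠ q.2 := Iff.rfl
@[simp] lemma adj_lh (p : N × Fin z) (e : R.edgeSet) :
    (bigG R z r).Adj (.inl p) (.inr (.inl e)) ↔ p.1 ∈ (e : Sym2 N) := Iff.rfl
@[simp] lemma adj_hl (p : N × Fin z) (e : R.edgeSet) :
    (bigG R z r).Adj (.inr (.inl e)) (.inl p) ↔ p.1 ∈ (e : Sym2 N) := Iff.rfl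
@[simp] lemma adj_hh (e e' : R.edgeSet) :
    (bigG R z r).Adj (.inr (.inl e)) (.inr (.inl e')) ↔ False := Iff.rfl
@[simp] lemma adj_rx (a : Fin r) (v : Vt R z r) :
    (bigG R z r).Adj (.inr (.inr a)) v ↔ False := Iff.rfl
@[simp] lemma adj_xr (a : Fin r) (v : Vt R z r) :
    (bigG R z r).Adj v (.inr (.inr a)) ↔ False := by
  rcases v with p | e | b <;> exact Iff.rfl

set_option linter.unusedSectionVars false

variable [Fintype N]

open Classical in
/-- The edges of `R` at the node `i`. -/
noncomputable def hubsAt (i : N) : Finset R.edgeSet := univ.filter (fun e => i ∈ (e : Sym2 N))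

open Classical in
@[simp] lemma mem_hubsAt (i : N) (e : R.edgeSet) : e ∈ hubsAt R i ↔ i ∈ (e : Sym2 N) := by
  simp [hubsAt]

/-- Embedding of the clique at `i`. -/
def cl (i : N) : Fin z ↪ Vt R z r := ⟨fun a => .inl (i, a), fun a b h => by simpa using h⟩

/-- Embedding of the hubs. -/
def hb : R.edgeSet ↪ Vt R z r := ⟨fun e => .inr (.inl e), fun a b h => by simpa using h⟩

open Classical in
/-- The clique at `i`, as a finset of vertices. -/
noncomputable def Q (i : N) : Finset (Vt R z r) := univ.map (cl R z r i)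

@[simp] lemma inl_mem_Q (i : N) (p : N × Fin z) : (Sum.inl p : Vt R z r) ∈ Q R z r i ↔ p.1 = i := by
  simp only [Q, mem_map, mem_univ, true_and, cl, Function.Embedding.coeFn_mk, Sum.inl.injEq]
  constructor
  · rintro ⟨a, rfl⟩; rfl
  · rintro rfl; exact ⟨p.2, rfl⟩

@[simp] lemma inr_mem_Q (i : N) (p : R.edgeSet ⊕ Fin r) :
    (Sum.inr p : Vt R z r) ∈ Q R z r i ↔ False := by
  simp [Q, cl]

lemma card_Q (i : N) : (Q R z r i).card = z := by simp [Q]

@[simp] lemma inl_mem_hb (T : Finset R.edgeSet) (p : N × Fin z) :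
    (Sum.inl p : Vt R z r) ∈ T.map (hb R z r) ↔ False := by
  simp [hb]

@[simp] lemma hub_mem_hb (T : Finset R.edgeSet) (e : R.edgeSet) :
    (Sum.inr (Sum.inl e) : Vt R z r) ∈ T.map (hb R z r) ↔ e ∈ T := by
  simp [hb]

@[simp] lemma iso_mem_hb (T : Finset R.edgeSet) (a : Fin r) :
    (Sum.inr (Sum.inr a) : Vt R z r) ∈ T.map (hb R z r) ↔ False := by
  simp [hb]

open Classical in
lemma nbhd_inl (p : N × Fin z) :
    univ.filter ((bigG R z r).Adj (.inl p)) =
      (Q R z r p.1).erase (.inl p) ∪ (hubsAt R p.1).map (hb R z r) := by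
  ext v
  rcases v with q | e | a
  · simp only [mem_filter, mem_univ, adj_ll, true_and, mem_union, mem_erase, ne_eq, inl_mem_Q,
      inl_mem_hb, or_false, Sum.inl.injEq]
    constructor
    · rintro ⟨h1, h2⟩; exact ⟨fun h => h2 (by rw [h]), h1.symm⟩
    · rintro ⟨h1, h2⟩; exact ⟨h2.symm, fun h => h1 (Prod.ext h2 h.symm)⟩
  · simp only [mem_filter, mem_univ, adj_lh, true_and, mem_union, mem_erase, inr_mem_Q, and_false,
      hub_mem_hb, mem_hubsAt, false_or]
  · simp only [mem_filter, mem_univ, adj_xr, mem_union, mem_erase, inr_mem_Q, and_false,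
      iso_mem_hb, false_or]

open Classical in
lemma nbhd_hub (e : R.edgeSet) {i j : N} (he : (e : Sym2 N) = s(i, j)) :
    univ.filter ((bigG R z r).Adj (.inr (.inl e))) = Q R z r i ∪ Q R z r j := by
  ext v
  rcases v with q | e' | a
  · simp [he]
  · simp
  · simp

open Classical in
lemma card_nbhd_inl {h : ℕ} (hreg : ∀ i, (hubsAt R i).card = h) (p : N × Fin z) :
    (univ.filter ((bigG R z r).Adj (.inl p))).card = z - 1 + h := by
  rw [nbhd_inl, card_union_of_disjoint, card_erase_of_mem (by simp), card_Q, card_map, hreg]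
  rw [Finset.disjoint_left]
  rintro (q | e | a) h1 h2
  · exact (inl_mem_hb R z r _ q).1 h2
  · simp at h1
  · simp at h1

open Classical in
lemma card_nbhd_hub (e : R.edgeSet) :
    (univ.filter ((bigG R z r).Adj (.inr (.inl e)))).card = 2 * z := by
  obtain ⟨e, he⟩ := e
  induction e using Sym2.ind with
  | _ i j =>
    have hij : i ≠ j := by
      rw [SimpleGraph.mem_edgeSet] at he
      exact he.ne
    rw [nbhd_hub R z r ⟨s(i, j), he⟩ rfl, card_union_of_disjoint, card_Q, card_Q, two_mul]
    rw [Finset.disjoint_left]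
    rintro (q | e | a) h1 h2
    · rw [inl_mem_Q] at h1 h2
      exact hij (h1.symm.trans h2)
    · simp at h1
    · simp at h1

open Classical in
lemma card_nbhd_iso (a : Fin r) :
    (univ.filter ((bigG R z r).Adj (.inr (.inr a)))).card = 0 := by
  simp

lemma hub_near {h : ℕ} (hreg : ∀ i, (hubsAt R i).card = h) (e e' : R.edgeSet) (hne : e ≠ e')
    (i : N) (hi : i ∈ (e : Sym2 N)) (hi' : i ∈ (e' : Sym2 N)) :
    kappa (bigG R z r) (.inr (.inl e)) (.inr (.inl e')) ≤ z + (h - 1) := by
  classical
  obtain ⟨j, hj⟩ := Sym2.mem_iff_exists.1 hi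
  have hje : j ∈ (e : Sym2 N) := by rw [hj]; simp
  have hij : i ≠ j := by
    have := e.2
    rw [hj, SimpleGraph.mem_edgeSet] at this
    exact this.ne
  have hje' : j ∉ (e' : Sym2 N) := by
    intro hh
    apply hne
    apply Subtype.ext
    rw [hj]
    exact ((Sym2.mem_and_mem_iff hij).1 ⟨hi', hh⟩).symm
  unfold kappa
  rw [if_neg (by simp)]
  have hsep : Sep (bigG R z r) (.inr (.inl e)) (.inr (.inl e'))
      (Q R z r i ∪ ((hubsAt R j).erase e).map (hb R z r)) := by
    refine sep_of_region (insert (.inr (.inl e)) {v | v ∈ Q R z r j}) (Set.mem_insert _ _)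
      ?_ _ ?_ ?_ ?_
    · rintro (h1 | h1)
      · rw [Sum.inr.injEq, Sum.inl.injEq] at h1
        exact hne h1.symm
      · simp at h1
    · rintro a (rfl | ha) b hab hb
      · rcases b with q | e'' | t
        · rw [adj_hl, hj, Sym2.mem_iff] at hab
          rcases hab with hq | hq
          · rw [mem_union, inl_mem_Q]; exact Or.inl hq
          · exact absurd (Or.inr (by simpa using hq)) hb
        · simp at hab
        · simp at hab
      · rcases a with p | a' | a'
        · have hp : p.1 = j := by simpa using ha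
          rcases b with q | e'' | t
          · rw [adj_ll] at hab
            exact absurd (Or.inr (by simpa using hab.1.symm.trans hp)) hb
          · rw [adj_lh, hp] at hab
            rw [mem_union, hub_mem_hb, mem_erase, mem_hubsAt]
            refine Or.inr ⟨?_, hab⟩
            rintro rfl
            exact hb (Or.inl rfl)
          · simp at hab
        · simp at ha
        · simp at ha
    · rw [mem_union, hub_mem_hb, inr_mem_Q, mem_erase]
      rintro (h1 | h1)
      · exact h1
      · exact h1.1 rfl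
    · rw [mem_union, hub_mem_hb, inr_mem_Q, mem_erase, mem_hubsAt]
      rintro (h1 | h1)
      · exact h1
      · exact hje' h1.2
  refine (sepNum_le hsep).trans ((card_union_le _ _).trans ?_)
  rw [card_Q, card_map, card_erase_of_mem (by simpa using hje), hreg]

lemma hub_far {h : ℕ} (hreg : ∀ i, (hubsAt R i).card = h) (e e' : R.edgeSet)
    (hfar : ∀ i, i ∈ (e : Sym2 N) → i ∉ (e' : Sym2 N)) :
    kappa (bigG R z r) (.inr (.inl e)) (.inr (.inl e')) ≤ (h - 1) + (h - 1) := by
  classical
  obtain ⟨i, j, hj⟩ : ∃ i j, (e : Sym2 N) = s(i, j) := by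
    induction (e : Sym2 N) using Sym2.ind with
    | _ i j => exact ⟨i, j, rfl⟩
  have hie : i ∈ (e : Sym2 N) := by rw [hj]; simp
  have hje : j ∈ (e : Sym2 N) := by rw [hj]; simp
  unfold kappa
  rw [if_neg (by simp)]
  have hsep : Sep (bigG R z r) (.inr (.inl e)) (.inr (.inl e'))
      (((hubsAt R i).erase e).map (hb R z r) ∪ ((hubsAt R j).erase e).map (hb R z r)) := by
    refine sep_of_region (insert (.inr (.inl e)) {v | v ∈ Q R z r i ∨ v ∈ Q R z r j})
      (Set.mem_insert _ _) ?_ _ ?_ ?_ ?_
    · rintro (h1 | h1)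
      · rw [Sum.inr.injEq, Sum.inl.injEq] at h1
        exact hfar i hie (by rw [h1]; exact hie)
      · simp at h1
    · rintro a (rfl | ha) b hab hb
      · rcases b with q | e'' | t
        · rw [adj_hl, hj, Sym2.mem_iff] at hab
          refine absurd (Or.inr ?_) hb
          rcases hab with hq | hq
          · exact Or.inl (by simpa using hq)
          · exact Or.inr (by simpa using hq)
        · simp at hab
        · simp at hab
      · rcases a with p | a' | a'
        · have hp : p.1 = i ∨ p.1 = j := by simpa using ha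
          rcases b with q | e'' | t
          · rw [adj_ll] at hab
            refine absurd (Or.inr ?_) hb
            rcases hp with hp | hp
            · exact Or.inl (by simpa using hab.1.symm.trans hp)
            · exact Or.inr (by simpa using hab.1.symm.trans hp)
          · rw [adj_lh] at hab
            have hne : e'' ≠ e := by
              rintro rfl
              exact hb (Or.inl rfl)
            rw [mem_union, hub_mem_hb, hub_mem_hb, mem_erase, mem_erase, mem_hubsAt, mem_hubsAt]
            rcases hp with hp | hp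
            · exact Or.inl ⟨hne, hp ▸ hab⟩
            · exact Or.inr ⟨hne, hp ▸ hab⟩
          · simp at hab
        · simp at ha
        · simp at ha
    · rw [mem_union, hub_mem_hb, hub_mem_hb, mem_erase, mem_erase]
      rintro (h1 | h1)
      · exact h1.1 rfl
      · exact h1.1 rfl
    · rw [mem_union, hub_mem_hb, hub_mem_hb, mem_erase, mem_erase, mem_hubsAt, mem_hubsAt]
      rintro (h1 | h1)
      · exact hfar i hie h1.2
      · exact hfar j hje h1.2
  refine (sepNum_le hsep).trans ((card_union_le _ _).trans ?_)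
  rw [card_map, card_map, card_erase_of_mem (by simpa using hie),
    card_erase_of_mem (by simpa using hje), hreg, hreg]

lemma kappaBar_bigG {h k : ℕ} (hreg : ∀ i, (hubsAt R i).card = h) (i0 : N) (hz : 2 ≤ z)
    (hk : z + h = k + 1) (h2 : 2 * h ≤ k + 2) : kappaBar (bigG R z r) = k := by
  classical
  apply kappaBar_eq
  · intro x y hxy
    rcases x with p | e | a
    · refine (kappa_le_deg hxy).trans ?_
      rw [card_nbhd_inl R z r hreg]
      omega
    · rcases y with q | e' | b
      · rw [kappa_comm]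
        refine (kappa_le_deg hxy.symm).trans ?_
        rw [card_nbhd_inl R z r hreg]
        omega
      · by_cases hfar : ∀ i, i ∈ (e : Sym2 N) → i ∉ (e' : Sym2 N)
        · exact (hub_far R z r hreg e e' hfar).trans (by omega)
        · push Not at hfar
          obtain ⟨i, hi, hi'⟩ := hfar
          have hne : e ≠ e' := fun hh => hxy (by rw [hh])
          have hpos : 0 < (hubsAt R i).card := card_pos.mpr ⟨e, by simpa using hi⟩
          rw [hreg] at hpos
          exact (hub_near R z r hreg e e' hne i hi hi').trans (by omega)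
      · rw [kappa_comm]
        refine (kappa_le_deg hxy.symm).trans ?_
        rw [card_nbhd_iso]
        omega
    · refine (kappa_le_deg hxy).trans ?_
      rw [card_nbhd_iso]
      omega
  · have hab : (⟨0, by omega⟩ : Fin z) ≠ ⟨1, by omega⟩ := by simp
    have hxy : (Sum.inl (i0, ⟨0, by omega⟩) : Vt R z r) ≠ Sum.inl (i0, ⟨1, by omega⟩) := by
      intro hh
      rw [Sum.inl.injEq, Prod.mk.injEq] at hh
      exact hab hh.2
    refine ⟨.inl (i0, ⟨0, by omega⟩), .inl (i0, ⟨1, by omega⟩), hxy, ?_⟩
    have key := le_kappa_of_adj (G := bigG R z r) (x := .inl (i0, ⟨0, by omega⟩))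
      (y := .inl (i0, ⟨1, by omega⟩)) ⟨rfl, hab⟩
      (((Q R z r i0).erase (.inl (i0, ⟨0, by omega⟩))).erase (.inl (i0, ⟨1, by omega⟩)) ∪
        (hubsAt R i0).map (hb R z r)) ?_ _ (sep_nbhd hxy)
    · rw [card_union_of_disjoint, card_erase_of_mem, card_erase_of_mem, card_Q, card_map, hreg]
        at key
      · omega
      · simp
      · rw [mem_erase]; exact ⟨hxy.symm, by simp⟩
      · rw [Finset.disjoint_left]
        rintro (q | e | a) h1 h2
        · exact (inl_mem_hb R z r _ q).1 h2
        · rw [mem_erase, mem_erase] at h1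
          exact (inr_mem_Q R z r i0 _).1 h1.2.2
        · rw [mem_erase, mem_erase] at h1
          exact (inr_mem_Q R z r i0 _).1 h1.2.2
    · intro c hc
      rw [mem_union, mem_erase, mem_erase] at hc
      rcases hc with ⟨h1, h2, h3⟩ | hc
      · rcases c with q | e | a
        · rw [inl_mem_Q] at h3
          refine ⟨⟨h3.symm, ?_⟩, ⟨h3, ?_⟩⟩
          · intro hh
            exact h2 (by rw [Sum.inl.injEq]; exact Prod.ext h3 hh.symm)
          · intro hh
            exact h1 (by rw [Sum.inl.injEq]; exact Prod.ext h3 hh)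
        · exact absurd h3 (by simp)
        · exact absurd h3 (by simp)
      · rcases c with q | e | a
        · exact absurd hc (fun hh => (inl_mem_hb R z r _ q).1 hh)
        · rw [hub_mem_hb, mem_hubsAt] at hc
          exact ⟨hc, hc⟩
        · exact absurd hc (fun hh => (iso_mem_hb R z r _ a).1 hh)

lemma two_card_edges {h : ℕ} (hreg : ∀ i, (hubsAt R i).card = h) :
    2 * (bigG R z r).edgeSet.ncard =
      Fintype.card N * z * (z - 1 + h) + Nat.card R.edgeSet * (2 * z) := by
  classical
  have h1 := (bigG R z r).sum_degrees_eq_twice_card_edges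
  have h2 : (bigG R z r).edgeSet.ncard = (bigG R z r).edgeFinset.card := by
    rw [← SimpleGraph.coe_edgeFinset, Set.ncard_coe_finset]
  rw [h2, ← h1]
  have h3 : ∀ v, (bigG R z r).degree v = (univ.filter ((bigG R z r).Adj v)).card := by
    intro v
    rw [← SimpleGraph.card_neighborFinset_eq_degree, SimpleGraph.neighborFinset_eq_filter]
  simp only [h3]
  rw [Fintype.sum_sum_type, Fintype.sum_sum_type]
  simp only [card_nbhd_inl R z r hreg, card_nbhd_hub R z r, card_nbhd_iso R z r, sum_const,
    card_univ, Fintype.card_prod, Fintype.card_fin, smul_eq_mul, mul_zero, add_zero]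
  rw [Nat.card_eq_fintype_card]

lemma two_card_R {h : ℕ} (hreg : ∀ i, (hubsAt R i).card = h) :
    2 * Nat.card R.edgeSet = Fintype.card N * h := by
  classical
  have h1 := R.sum_degrees_eq_twice_card_edges
  have h2 : Nat.card R.edgeSet = R.edgeFinset.card := by
    rw [Nat.card_eq_fintype_card, SimpleGraph.edgeFinset_card]
  rw [h2, ← h1]
  have h3 : ∀ i, R.degree i = h := by
    intro i
    rw [← SimpleGraph.card_incidenceFinset_eq_degree, ← hreg i]
    have : R.incidenceFinset i = (hubsAt R i).map (Function.Embedding.subtype _) := by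
      ext e
      simp only [SimpleGraph.mem_incidenceFinset, mem_map, mem_hubsAt,
        Function.Embedding.coe_subtype, Subtype.exists, exists_and_left, exists_prop,
        exists_eq_right_right]
      constructor
      · rintro ⟨a, b⟩; exact ⟨b, a⟩
      · rintro ⟨a, b⟩; exact ⟨b, a⟩
    rw [this, card_map]
  simp [h3]

end construction

/-! ### Disjoint copies of complete graphs -/

/-- `m` disjoint copies of `K_{h+1}`. -/
def copies (m h : ℕ) : SimpleGraph (Fin m × Fin (h + 1)) where
  Adj p q := p.1 = q.1 ∧ p.2 ≠ q.2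
  symm := ⟨fun _ _ h => ⟨h.1.symm, h.2.symm⟩⟩
  loopless := ⟨fun _ h => h.2 rfl⟩

lemma copies_reg (m h : ℕ) (i : Fin m × Fin (h + 1)) : (hubsAt (copies m h) i).card = h := by
  classical
  have h3 : (copies m h).degree i = h := by
    rw [← SimpleGraph.card_neighborFinset_eq_degree]
    have : (copies m h).neighborFinset i =
        (univ.erase i.2).map ⟨fun a => (i.1, a), fun a b h => by simpa using h⟩ := by
      ext q
      simp only [SimpleGraph.mem_neighborFinset, mem_map, mem_erase, mem_univ, and_true,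
        Function.Embedding.coeFn_mk]
      constructor
      · rintro ⟨h1, h2⟩; exact ⟨q.2, h2.symm, Prod.ext h1 rfl⟩
      · rintro ⟨a, h1, rfl⟩; exact ⟨rfl, h1.symm⟩
    rw [this, card_map, card_erase_of_mem (mem_univ _), card_univ, Fintype.card_fin]
    omega
  rw [← SimpleGraph.card_incidenceFinset_eq_degree] at h3
  refine Eq.trans ?_ h3
  have : (copies m h).incidenceFinset i =
      (hubsAt (copies m h) i).map (Function.Embedding.subtype _) := by
    ext e
    simp only [SimpleGraph.mem_incidenceFinset, mem_map, mem_hubsAt,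
      Function.Embedding.coe_subtype, Subtype.exists, exists_and_left, exists_prop,
      exists_eq_right_right]
    constructor
    · rintro ⟨a, b⟩; exact ⟨b, a⟩
    · rintro ⟨a, b⟩; exact ⟨b, a⟩
  rw [this, card_map]

/-- The explicit construction. -/
lemma exists_graph (k h m r : ℕ) (hm : 0 < m) (h1 : h + 1 ≤ k) (h2 : 2 * h ≤ k + 2) :
    ∃ n e : ℕ, 2 * n = m * ((h + 1) * (2 * (k - h + 1) + h)) + 2 * r ∧
      2 * e = m * ((h + 1) * (k - h + 1) * (k + h)) ∧ e ≤ f n k := by
  classical
  set z := k - h + 1 with hz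
  have hreg := copies_reg m h
  refine ⟨Fintype.card (Vt (copies m h) z r), (bigG (copies m h) z r).edgeSet.ncard, ?_, ?_, ?_⟩
  · have hR := two_card_R (copies m h) hreg
    have : Fintype.card (Vt (copies m h) z r) =
        m * (h + 1) * z + (Nat.card (copies m h).edgeSet + r) := by
      rw [Fintype.card_sum, Fintype.card_sum, Fintype.card_prod, Fintype.card_prod,
        Fintype.card_fin, Fintype.card_fin, Fintype.card_fin, Fintype.card_fin,
        Nat.card_eq_fintype_card]
    rw [this]
    rw [Fintype.card_prod, Fintype.card_fin, Fintype.card_fin] at hR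
    linear_combination hR
  · have hR := two_card_R (copies m h) hreg
    have hE := two_card_edges (copies m h) z r hreg
    rw [Fintype.card_prod, Fintype.card_fin, Fintype.card_fin] at hR hE
    rw [hE]
    have hzk : z - 1 + h = k := by omega
    rw [hzk]
    linear_combination z * hR
  · refine le_f _ rfl ?_ le_rfl
    exact kappaBar_bigG (copies m h) z r hreg (⟨0, hm⟩, 0) (by omega) (by omega) h2

/-- For every `k ≥ 2` and every `n`, `f(n, k) ≥ (4 - 2√3) k n - k³`. -/
theorem result (k n : ℕ) (hk : 2 ≤ k) :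
    (4 - 2 * √3) * k * n - (k : ℝ) ^ 3 ≤ f n k := by
  set s : ℝ := √3 with hs
  have hs2 : s ^ 2 = 3 := Real.sq_sqrt (by norm_num)
  have hs0 : 0 ≤ s := Real.sqrt_nonneg 3
  have hs1 : 1.73 < s := by
    by_contra hcon
    push Not at hcon
    nlinarith
  have hs3 : s < 1.74 := by
    by_contra hcon
    push Not at hcon
    nlinarith
  have hkR : (2 : ℝ) ≤ k := by exact_mod_cast hk
  -- the parameter `h`
  set h : ℕ := ⌈(2 - s) * k⌉₊ with hh
  have hh1 : (2 - s) * k ≤ h := Nat.le_ceil _
  have hh2 : (h : ℝ) < (2 - s) * k + 1 := Nat.ceil_lt_add_one (by nlinarith)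
  have hk1 : h + 1 ≤ k := by
    rcases Nat.lt_or_ge 2 k with hk3 | hk3
    · have hk3R : (3 : ℝ) ≤ k := by exact_mod_cast hk3
      have : (h : ℝ) + 1 < k := by nlinarith
      have : h + 1 < k := by exact_mod_cast this
      omega
    · have hk2 : k = 2 := by omega
      rw [hk2] at hh2 ⊢
      have : (h : ℝ) < 2 := by push_cast at hh2; nlinarith
      have : h < 2 := by exact_mod_cast this
      omega
  have hk2 : 2 * h ≤ k + 2 := by
    have : 2 * (h : ℝ) < k + 2 := by nlinarith
    have : 2 * h < k + 2 := by exact_mod_cast this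
    omega
  have hhk : h ≤ k := by omega
  have hk1R : (h : ℝ) + 1 ≤ k := by exact_mod_cast hk1
  have hh0 : (0 : ℝ) ≤ h := Nat.cast_nonneg h
  -- sizes of one copy
  have hev : 2 ∣ (h + 1) * (2 * (k - h + 1) + h) := by
    rcases Nat.even_or_odd h with he | he
    · exact Dvd.dvd.mul_left (dvd_add (dvd_mul_right _ _) he.two_dvd) _
    · exact Dvd.dvd.mul_right (he.add_one).two_dvd _
  obtain ⟨n0, hn0⟩ := hev
  have hn0pos : 0 < n0 := by
    by_contra hcon
    have : n0 = 0 := by omega
    rw [this] at hn0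
    have h1 : 0 < (h + 1) * (2 * (k - h + 1) + h) := by positivity
    omega
  have hn0R : (2 : ℝ) * n0 = (h + 1) * (2 * (k - h + 1) + h) := by
    have := congrArg (Nat.cast (R := ℝ)) hn0
    push_cast [Nat.cast_sub hhk] at this
    linarith
  set E0 : ℝ := (h + 1) * (k - h + 1) * (k + h) / 2 with hE0
  have hE1 : (4 - 2 * s) * k * n0 ≤ E0 := by
    have hP : (k - h + 1) * (k + h) - 2 * (2 - s) * k * (2 * k - h + 2)
        = -(h - (2 - s) * k) ^ 2 + h - (2 - s) ^ 2 * k + ((s : ℝ) ^ 2 - 3) * (k ^ 2 + k) := by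
      ring
    have hP2 : 0 ≤ (k - h + 1) * (k + h) - 2 * (2 - s) * k * (2 * k - h + 2) := by
      rw [hP, hs2]
      nlinarith [mul_nonneg (sub_nonneg.2 hh1) (sub_nonneg.2 hh2.le),
        mul_nonneg (show (0 : ℝ) ≤ (2 - s) * (s - 1) by nlinarith) (show (0 : ℝ) ≤ k by linarith)]
    have h1 : 0 ≤ ((h : ℝ) + 1) *
        ((k - h + 1) * (k + h) - 2 * (2 - s) * k * (2 * k - h + 2)) :=
      mul_nonneg (by linarith) hP2
    rw [hE0]
    have h2 : (4 - 2 * s) * k * n0 = (2 - s) * k * (2 * n0) := by ring
    rw [h2, hn0R]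
    linarith
  have hE2 : E0 ≤ (k : ℝ) ^ 3 := by
    rw [hE0]
    have h1 : ((k : ℝ) - h + 1) * (k + h) ≤ 2 * k ^ 2 := by
      have : (0 : ℝ) ≤ h * (h - 1) := by
        rcases Nat.eq_zero_or_pos h with h0 | h0
        · simp [h0]
        · have : (1 : ℝ) ≤ h := by exact_mod_cast h0
          exact mul_nonneg hh0 (by linarith)
      nlinarith
    have h2 : ((h : ℝ) + 1) * (((k : ℝ) - h + 1) * (k + h)) ≤ k * (2 * k ^ 2) :=
      mul_le_mul hk1R h1 (mul_nonneg (by linarith) (by linarith)) (by linarith)
    nlinarith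
  have hE0n : 0 ≤ E0 := by
    rw [hE0]
    have : (0 : ℝ) ≤ (h + 1) * (k - h + 1) * (k + h) :=
      mul_nonneg (mul_nonneg (by linarith) (by linarith)) (by linarith)
    linarith
  -- `n = m n₀ + r`
  set m := n / n0 with hm
  set r := n % n0 with hr
  have hnmr : n = n0 * m + r := (Nat.div_add_mod n n0).symm
  have hrlt : r < n0 := Nat.mod_lt _ hn0pos
  have hfm : (m : ℝ) * E0 ≤ f n k := by
    rcases Nat.eq_zero_or_pos m with hm0 | hm0
    · rw [hm0]; simp
    · obtain ⟨n', e, h1, h2, h3⟩ := exists_graph k h m r hm0 hk1 hk2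
      have hn' : n' = n := by
        rw [hn0] at h1
        rw [hnmr]
        have : m * (2 * n0) = 2 * (n0 * m) := by ring
        omega
      rw [hn'] at h3
      have h4 : (m : ℝ) * E0 = e := by
        have := congrArg (Nat.cast (R := ℝ)) h2
        push_cast [Nat.cast_sub hhk] at this
        rw [hE0]
        linarith
      rw [h4]
      exact_mod_cast h3
  have hnR : (n : ℝ) = n0 * m + r := by exact_mod_cast hnmr
  have hrR : (r : ℝ) ≤ n0 := by exact_mod_cast hrlt.le
  have hck : (0 : ℝ) ≤ (4 - 2 * s) * k := mul_nonneg (by linarith) (by linarith)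
  have hm0 : (0 : ℝ) ≤ m := Nat.cast_nonneg m
  have a1 : (m : ℝ) * ((4 - 2 * s) * k * n0) ≤ m * E0 := mul_le_mul_of_nonneg_left hE1 hm0
  have a2 : (4 - 2 * s) * k * r ≤ (4 - 2 * s) * k * n0 := mul_le_mul_of_nonneg_left hrR hck
  rw [hnR]
  have a3 : (4 - 2 * s) * k * (n0 * m + r) = m * ((4 - 2 * s) * k * n0) + (4 - 2 * s) * k * r := by
    ring
  rw [a3]
  linarith

end Pool.Agent.Results.MP_0bab5c_co.LowerBound
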