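import Pool.Agent.Lib_MP_0bab5c_s.SEnd
import Pool.Agent.Lib_MP_0bab5c_s.LowE
import Pool.Agent.Lib_MP_0bab5c_co.LowCirc

/-!
# The size of graphs with maximum local connectivity `k` for `n` between `k` and `k ^ 2`

`f n k` is the largest number of edges of a graph of order `n` whose maximum local connectivity
equals `k`. We show that `f n k / (k n)` changes, to leading order in `k`, exactly at the powers
`n ≈ k ^ (1 + 1 / s)`, `s = 1, 2, 3, …`: for every `s ≥ 2` and `ε > 0` there are `C, δ > 0` (`C`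
depends on `s` only) and `k0` such that for all `k ≥ k0` and all `n`

* `f n k ≥ (1/2 + 1/(2 (4s - 1) (4s + 1))) k n` if `n ≥ C k ^ (1 + 1/s)`;
* `f n k ≤ (1/2 + 1/(2 (4s - 1) (4s)) + ε) k n` if `n ≤ δ k ^ (1 + 1/(s - 1))`;
* `f n k ≥ (1/2 - ε) k n` if `n ≥ k + 2`.

The second bound for `s` is below the first bound for `s - 1`, so `f n k / (k n)` jumps at each of
these powers; and `f n k = (1/2 + o(1)) k n` exactly for `n = k ^ (1 + o(1))` (let `s` grow).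

The definitions (`Sep`, `sepNum`, `kappa`, `kappaBar`, `f`) are in
`Pool/Agent/Lib_MP_0bab5c_co/KDefs.lean`.
-/

namespace Pool.Agent.Results.MP_0bab5c_co.TransitionRange

open Pool.Agent.LC0bab

/-- The transition of `f n k / (k n)` for `n` between `k` and `k ^ 2`. -/
theorem result (s : ℕ) (hs : 2 ≤ s) : ∃ C : ℝ, 0 < C ∧ ∀ ε : ℝ, 0 < ε → ∃ δ : ℝ, 0 < δ ∧
    ∃ k0 : ℕ, ∀ k : ℕ, k0 ≤ k → ∀ n : ℕ,
      (C * (k : ℝ) ^ (1 + 1 / (s : ℝ)) ≤ n →
        (1 / 2 + 1 / (2 * (4 * (s : ℝ) - 1) * (4 * s + 1))) * k * n ≤ f n k) ∧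
      ((n : ℝ) ≤ δ * (k : ℝ) ^ (1 + 1 / ((s : ℝ) - 1)) →
        (f n k : ℝ) ≤ (1 / 2 + 1 / (2 * (4 * (s : ℝ) - 1) * (4 * s)) + ε) * k * n) ∧
      (k + 2 ≤ n → (1 / 2 - ε) * k * n ≤ f n k) := by
  obtain ⟨C, hC, k1, h1⟩ := Pol.low_s s hs
  refine ⟨C, hC, fun ε hε => ?_⟩
  obtain ⟨δ, hδ, k2, h2⟩ := LCS.upper_s s hs ε hε
  obtain ⟨k3, hk3⟩ := exists_nat_ge (1 / ε)
  refine ⟨δ, hδ, max k1 (max k2 (max k3 1)), fun k hk n => ⟨fun hn => ?_, fun hn => ?_,
    fun hn => ?_⟩⟩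
  · exact h1 k (le_trans (le_max_left _ _) hk) n hn
  · have hkk2 : k2 ≤ k := le_trans (le_trans (le_max_left _ _) (le_max_right _ _)) hk
    have h3 := h2 k hkk2 n hn
    have h4 : LCS.Kr s / 2 = 1 / (2 * (4 * (s : ℝ) - 1) * (4 * s)) := by
      unfold LCS.Kr
      rw [div_div]
      congr 1
      ring
    rw [h4] at h3
    exact h3
  · have hkk3 : k3 ≤ k := le_trans (le_trans (le_trans (le_max_left _ _) (le_max_right _ _))
      (le_max_right _ _)) hk
    have hk1' : 1 ≤ k := le_trans (le_trans (le_trans (le_max_right _ _) (le_max_right _ _))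
      (le_max_right _ _)) hk
    have hnr : (0 : ℝ) ≤ n := Nat.cast_nonneg _
    have h0 := low_bound hn
    have h3 : (((k - 1) * n : ℕ) : ℝ) ≤ ((2 * f n k : ℕ) : ℝ) := by exact_mod_cast h0
    rw [Nat.cast_mul, Nat.cast_sub hk1', Nat.cast_mul] at h3
    push_cast at h3
    have h5 : 1 / ε ≤ k := hk3.trans (by exact_mod_cast hkk3)
    rw [div_le_iff₀ hε] at h5
    have h6 : 1 * (n : ℝ) ≤ k * ε * n := mul_le_mul_of_nonneg_right h5 hnr
    nlinarith

end Pool.Agent.Results.MP_0bab5c_co.TransitionRange
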